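import Mathlib

set_option autoImplicit false

namespace Pool.Agent.Helper34.GGP

open Finset

variable {ι : Type*} [Fintype ι]

lemma sum_range_indicator (e y : ℕ) (h : y ≤ e) :
    ∑ m ∈ range e, (if m < y then (1 : ℝ) else 0) = y := by
  rw [← Finset.sum_filter, Finset.sum_const, nsmul_eq_mul, mul_one]
  congr 1
  have : (range e).filter (fun m => m < y) = range y := by
    ext m; simp only [mem_filter, mem_range]; omega
  rw [this, card_range]

/-- Cauchy–Schwarz over the atoms of the box. -/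
lemma min_sum_ge (w : ι → ℝ) (hw : ∀ i, 0 ≤ w i) (e : ι → ℕ) (Y : Finset (ι → ℕ))
    (hY : ∀ y ∈ Y, ∀ i, y i ≤ e i) :
    (∑ y ∈ Y, ∑ i, w i * (y i : ℝ)) ^ 2 ≤
      (∑ i, w i * (e i : ℝ)) * ∑ y ∈ Y, ∑ y' ∈ Y, ∑ i, w i * (min (y i) (y' i) : ℕ) := by
  set c : (Σ _ : ι, ℕ) → ℝ := fun z => ∑ y ∈ Y, (if z.2 < y z.1 then (1 : ℝ) else 0) with hc
  set S : Finset (Σ _ : ι, ℕ) := (univ : Finset ι).sigma (fun i => range (e i)) with hS
  have h1 : ∑ y ∈ Y, ∑ i, w i * (y i : ℝ) = ∑ z ∈ S, w z.1 * c z := by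
    rw [hS, Finset.sum_sigma, Finset.sum_comm]
    refine Finset.sum_congr rfl (fun i _ => ?_)
    simp only [hc]
    rw [← Finset.mul_sum, ← Finset.mul_sum, Finset.sum_comm]
    congr 1
    refine Finset.sum_congr rfl (fun y hy => ?_)
    rw [sum_range_indicator _ _ (hY y hy i)]
  have h2 : ∑ i, w i * (e i : ℝ) = ∑ z ∈ S, w z.1 := by
    rw [hS, Finset.sum_sigma]
    refine Finset.sum_congr rfl (fun i _ => ?_)
    simp [mul_comm]
  have h3 : ∑ y ∈ Y, ∑ y' ∈ Y, ∑ i, w i * (min (y i) (y' i) : ℕ) = ∑ z ∈ S, w z.1 * c z ^ 2 := by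
    rw [hS, Finset.sum_sigma]
    have : ∀ y ∈ Y, ∑ y' ∈ Y, ∑ i, w i * (min (y i) (y' i) : ℕ) =
        ∑ i, ∑ y' ∈ Y, w i * (min (y i) (y' i) : ℕ) := fun y _ => Finset.sum_comm
    rw [Finset.sum_congr rfl this, Finset.sum_comm]
    refine Finset.sum_congr rfl (fun i _ => ?_)
    simp only [hc]
    simp_rw [← Finset.mul_sum]
    congr 1
    have h4 : ∀ m ∈ range (e i), (∑ y ∈ Y, (if m < y i then (1 : ℝ) else 0)) ^ 2 =
        ∑ y ∈ Y, ∑ y' ∈ Y, (if m < min (y i) (y' i) then (1 : ℝ) else 0) := by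
      intro m _
      rw [sq, Finset.sum_mul_sum]
      refine Finset.sum_congr rfl (fun y _ => Finset.sum_congr rfl (fun y' _ => ?_))
      by_cases h1 : m < y i <;> by_cases h2 : m < y' i <;> simp [h1, h2]
    rw [Finset.sum_congr rfl h4]
    have h5 : ∑ m ∈ range (e i), ∑ y ∈ Y, ∑ y' ∈ Y,
        (if m < min (y i) (y' i) then (1 : ℝ) else 0) =
        ∑ y ∈ Y, ∑ y' ∈ Y, ((min (y i) (y' i) : ℕ) : ℝ) := by
      rw [Finset.sum_comm]
      refine Finset.sum_congr rfl (fun y hy => ?_)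
      rw [Finset.sum_comm]
      refine Finset.sum_congr rfl (fun y' hy' => ?_)
      rw [sum_range_indicator _ _ ((min_le_left _ _).trans (hY y hy i))]
    rw [h5]
  rw [h1, h2, h3]
  apply Finset.sum_sq_le_sum_mul_sum_of_sq_le_mul
  · intro z _; exact hw _
  · intro z _; exact mul_nonneg (hw _) (sq_nonneg _)
  · intro z _; apply le_of_eq; ring

/-- The larger sieve: a family of vectors of large weight with small pairwise minima is small. -/
lemma family_bound (w : ι → ℝ) (hw : ∀ i, 0 ≤ w i) (e : ι → ℕ) (Y : Finset (ι → ℕ))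
    (hY : ∀ y ∈ Y, ∀ i, y i ≤ e i) (α β : ℝ) (hα : 0 ≤ α) (hβ : 0 ≤ β)
    (hW : 0 < ∑ i, w i * (e i : ℝ))
    (hbig : ∀ y ∈ Y, β * (∑ i, w i * (e i : ℝ)) ≤ ∑ i, w i * (y i : ℝ))
    (hsmall : ∀ y ∈ Y, ∀ y' ∈ Y, y ≠ y' →
      ∑ i, w i * (min (y i) (y' i) : ℕ) ≤ α * (∑ i, w i * (e i : ℝ))) :
    (β ^ 2 - α) * (Y.card : ℝ) ≤ 1 := by
  set W := ∑ i, w i * (e i : ℝ) with hWdef
  rcases Y.eq_empty_or_nonempty with h0 | hne
  · rw [h0]; simp
  have hr : (0 : ℝ) < Y.card := by exact_mod_cast card_pos.2 hne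
  have h1 : (Y.card : ℝ) * (β * W) ≤ ∑ y ∈ Y, ∑ i, w i * (y i : ℝ) := by
    rw [← nsmul_eq_mul, ← Finset.sum_const]
    exact Finset.sum_le_sum hbig
  have h2 : ∑ y ∈ Y, ∑ y' ∈ Y, ∑ i, w i * (min (y i) (y' i) : ℕ) ≤
      (Y.card : ℝ) * (W + (Y.card : ℝ) * (α * W)) := by
    rw [← nsmul_eq_mul, ← Finset.sum_const]
    refine Finset.sum_le_sum (fun y hy => ?_)
    rw [← Finset.add_sum_erase Y _ hy]
    apply add_le_add
    · refine Finset.sum_le_sum (fun i _ => ?_)
      apply mul_le_mul_of_nonneg_left _ (hw i)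
      rw [min_self]
      exact_mod_cast hY y hy i
    · calc ∑ y' ∈ Y.erase y, ∑ i, w i * (min (y i) (y' i) : ℕ)
          ≤ ∑ y' ∈ Y.erase y, α * W := by
            refine Finset.sum_le_sum (fun y' hy' => ?_)
            rw [mem_erase] at hy'
            exact hsmall y hy y' hy'.2 (Ne.symm hy'.1)
        _ = ((Y.erase y).card : ℝ) * (α * W) := by rw [Finset.sum_const, nsmul_eq_mul]
        _ ≤ (Y.card : ℝ) * (α * W) := by
            apply mul_le_mul_of_nonneg_right _ (by positivity)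
            exact_mod_cast card_le_card (erase_subset _ _)
  have h3 := min_sum_ge w hw e Y hY
  rw [← hWdef] at h3
  have h4 : ((Y.card : ℝ) * (β * W)) ^ 2 ≤ W * ((Y.card : ℝ) * (W + (Y.card : ℝ) * (α * W))) :=
    calc ((Y.card : ℝ) * (β * W)) ^ 2 ≤ (∑ y ∈ Y, ∑ i, w i * (y i : ℝ)) ^ 2 :=
          pow_le_pow_left₀ (by positivity) h1 2
      _ ≤ _ := h3
      _ ≤ _ := mul_le_mul_of_nonneg_left h2 hW.le
  have h5 : (Y.card : ℝ) * (W ^ 2) * ((β ^ 2 - α) * (Y.card : ℝ)) ≤ (Y.card : ℝ) * (W ^ 2) * 1 := by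
    nlinarith [h4]
  exact le_of_mul_le_mul_left h5 (by positivity)

/-- The value of a vector. -/
def val (g : ι → ℕ) (x : ι → ℕ) : ℕ := ∏ i, g i ^ x i


lemma val_pos {g : ι → ℕ} (hg : ∀ i, 2 ≤ g i) (x : ι → ℕ) : 0 < val g x :=
  Finset.prod_pos (fun i _ => pow_pos (by have := hg i; omega) _)


lemma log_val {g : ι → ℕ} (hg : ∀ i, 2 ≤ g i) (x : ι → ℕ) :
    Real.log (val g x) = ∑ i, Real.log (g i) * (x i : ℝ) := by
  unfold val
  push_cast
  rw [Real.log_prod]
  · refine Finset.sum_congr rfl (fun i _ => ?_)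
    rw [Real.log_pow, mul_comm]
  · intro i _
    have : (g i : ℝ) ≠ 0 := by
      have := hg i
      positivity
    positivity

/-- Two representations of the same integer force a small common part. -/
lemma common_small {g : ι → ℕ} (hg : ∀ i, 2 ≤ g i) {x x' y y' : ι → ℕ}
    (hsum : val g x + val g y = val g x' + val g y') (hne : val g y ≠ val g y') (B : ℝ)
    (hx : Real.log (val g x) ≤ B) (hx' : Real.log (val g x') ≤ B) :
    ∑ i, Real.log (g i) * (min (y i) (y' i) : ℕ) ≤ B := by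
  have hgi : ∀ i, 0 < g i := fun i => by have := hg i; omega
  rw [← log_val hg (fun i => min (y i) (y' i))]
  have hd1 : val g (fun i => min (y i) (y' i)) ∣ val g y :=
    Finset.prod_dvd_prod_of_dvd _ _ (fun i _ => pow_dvd_pow _ (min_le_left _ _))
  have hd2 : val g (fun i => min (y i) (y' i)) ∣ val g y' :=
    Finset.prod_dvd_prod_of_dvd _ _ (fun i _ => pow_dvd_pow _ (min_le_right _ _))
  rcases lt_or_gt_of_ne hne with h | h
  · have hd : val g (fun i => min (y i) (y' i)) ∣ val g y' - val g y := Nat.dvd_sub hd2 hd1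
    have hle := Nat.le_of_dvd (by omega) hd
    have : val g (fun i => min (y i) (y' i)) ≤ val g x := by omega
    refine le_trans (Real.log_le_log ?_ ?_) hx
    · exact_mod_cast val_pos hg _
    · exact_mod_cast this
  · have hd : val g (fun i => min (y i) (y' i)) ∣ val g y - val g y' := Nat.dvd_sub hd1 hd2
    have hle := Nat.le_of_dvd (by omega) hd
    have : val g (fun i => min (y i) (y' i)) ≤ val g x' := by omega
    refine le_trans (Real.log_le_log ?_ ?_) hx'
    · exact_mod_cast val_pos hg _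
    · exact_mod_cast this

end Pool.Agent.Helper34.GGP
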