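import Mathlib

set_option autoImplicit false

namespace Pool.Agent.Helper34.GGP

open Finset

/-! ### The tilted measure on one side -/

/-- Deviation. -/
noncomputable def dev (e j : ℕ) : ℝ := (5 / 7) * (((e : ℝ) - 2 * j) / ((e : ℝ) + 2))

/-- The tilted weight of `j ∈ {0, ..., e}`. -/
noncomputable def mu (e j : ℕ) : ℝ := (1 + dev e j) / ((e : ℝ) + 1)

/-- Cubic upper bound for the eighth root. -/
noncomputable def pp (x : ℝ) : ℝ := 1 + x / 8 - 7 * x ^ 2 / 128 + 35 * x ^ 3 / 1024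

lemma dev_abs {e j : ℕ} (h : j ≤ e) : |dev e j| ≤ (5 / 7) * ((e : ℝ) / ((e : ℝ) + 2)) := by
  unfold dev
  rw [abs_mul, abs_of_pos (by norm_num : (0 : ℝ) < 5 / 7), abs_div,
    abs_of_pos (by positivity : (0 : ℝ) < (e : ℝ) + 2)]
  apply mul_le_mul_of_nonneg_left _ (by norm_num)
  apply div_le_div_of_nonneg_right _ (by positivity)
  have hj : (j : ℝ) ≤ e := by exact_mod_cast h
  have hj0 : (0 : ℝ) ≤ j := Nat.cast_nonneg j
  rw [abs_le]
  constructor <;> linarith

lemma dev_abs_le {e j : ℕ} (h : j ≤ e) : |dev e j| ≤ 5 / 7 := by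
  refine (dev_abs h).trans ?_
  have : (e : ℝ) / ((e : ℝ) + 2) ≤ 1 := by
    rw [div_le_one (by positivity)]; linarith
  nlinarith

lemma mu_pos {e j : ℕ} (h : j ≤ e) : 0 < mu e j := by
  have := dev_abs_le h
  rw [abs_le] at this
  unfold mu
  apply div_pos _ (by positivity)
  linarith [this.1]

lemma pp_pow {x : ℝ} (h : |x| ≤ 5 / 7) : 1 + x ≤ pp x ^ 8 := by
  rw [abs_le] at h
  obtain ⟨h1, h2⟩ := h
  set p1 : ℝ := 1 + x / 2 - x ^ 2 / 8 + x ^ 3 / 16 with hp1
  set p2 : ℝ := 1 + x / 4 - 3 * x ^ 2 / 32 + 7 * x ^ 3 / 128 with hp2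
  have e1 : 1 + x ≤ p1 ^ 2 := by
    have : p1 ^ 2 - (1 + x) = x ^ 4 * (5 / 64 - x / 64 + x ^ 2 / 256) := by
      rw [hp1]; ring
    have h3 : 0 ≤ x ^ 4 * (5 / 64 - x / 64 + x ^ 2 / 256) := by
      apply mul_nonneg (by positivity)
      nlinarith [sq_nonneg x]
    linarith
  have e2 : p1 ≤ p2 ^ 2 := by
    have : p2 ^ 2 - p1 = x ^ 4 * (37 / 1024 - 21 * x / 2048 + 49 * x ^ 2 / 16384) := by
      rw [hp1, hp2]; ring
    have h3 : 0 ≤ x ^ 4 * (37 / 1024 - 21 * x / 2048 + 49 * x ^ 2 / 16384) := by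
      apply mul_nonneg (by positivity)
      nlinarith [sq_nonneg x]
    linarith
  have e3 : p2 ≤ pp x ^ 2 := by
    have : pp x ^ 2 - p2 = x ^ 4 * (189 / 16384 - 245 * x / 65536 + 1225 * x ^ 2 / 1048576) := by
      rw [hp2, pp]; ring
    have h3 : 0 ≤ x ^ 4 * (189 / 16384 - 245 * x / 65536 + 1225 * x ^ 2 / 1048576) := by
      apply mul_nonneg (by positivity)
      nlinarith [sq_nonneg x]
    linarith
  have p2pos : 0 ≤ p2 := by
    rw [hp2]
    nlinarith [sq_nonneg x, mul_nonneg (by linarith : (0:ℝ) ≤ 5/7 - x) (sq_nonneg x), mul_nonneg (by linarith : (0:ℝ) ≤ 5/7 + x) (sq_nonneg x)]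
  have p1pos : 0 ≤ p1 := by
    rw [hp1]
    nlinarith [sq_nonneg x, mul_nonneg (by linarith : (0:ℝ) ≤ 5/7 - x) (sq_nonneg x), mul_nonneg (by linarith : (0:ℝ) ≤ 5/7 + x) (sq_nonneg x)]
  calc 1 + x ≤ p1 ^ 2 := e1
    _ ≤ (p2 ^ 2) ^ 2 := pow_le_pow_left₀ p1pos e2 2
    _ ≤ ((pp x ^ 2) ^ 2) ^ 2 := by
        apply pow_le_pow_left₀ (by positivity)
        exact pow_le_pow_left₀ p2pos e3 2
    _ = pp x ^ 8 := by ring

lemma pp_pos {x : ℝ} (h : |x| ≤ 5 / 7) : 0 < pp x := by
  rw [abs_le] at h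
  obtain ⟨h1, h2⟩ := h
  unfold pp
  nlinarith [sq_nonneg x, mul_nonneg (by linarith : (0:ℝ) ≤ 5/7 - x) (sq_nonneg x), mul_nonneg (by linarith : (0:ℝ) ≤ 5/7 + x) (sq_nonneg x)]

/-! Moments. -/

lemma sum_j (m : ℕ) : ∑ j ∈ range (m + 1), (j : ℝ) = (m : ℝ) * (m + 1) / 2 := by
  induction m with
  | zero => simp
  | succ m ih => rw [sum_range_succ, ih]; push_cast; ring

lemma sum_j2 (m : ℕ) : ∑ j ∈ range (m + 1), (j : ℝ) ^ 2 = (m : ℝ) * (m + 1) * (2 * m + 1) / 6 := by
  induction m with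
  | zero => simp
  | succ m ih => rw [sum_range_succ, ih]; push_cast; ring

lemma sum_j3 (m : ℕ) : ∑ j ∈ range (m + 1), (j : ℝ) ^ 3 = ((m : ℝ) * (m + 1) / 2) ^ 2 := by
  induction m with
  | zero => simp
  | succ m ih => rw [sum_range_succ, ih]; push_cast; ring

lemma sum_dev1 (e : ℕ) : ∑ j ∈ range (e + 1), dev e j = 0 := by
  unfold dev
  rw [← Finset.mul_sum, ← Finset.sum_div, Finset.sum_sub_distrib, ← Finset.mul_sum, sum_j]
  simp only [sum_const, card_range, nsmul_eq_mul]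
  push_cast
  ring

lemma sum_dev2 (e : ℕ) : ∑ j ∈ range (e + 1), dev e j ^ 2 =
    (25 / 49) * ((e : ℝ) * (e + 1) / (3 * (e + 2))) := by
  have h : ∀ j ∈ range (e + 1), dev e j ^ 2 =
      (25 / 49) / ((e : ℝ) + 2) ^ 2 * ((e : ℝ) ^ 2 - 4 * e * j + 4 * (j : ℝ) ^ 2) := by
    intro j _
    unfold dev
    field_simp
    ring
  rw [Finset.sum_congr rfl h, ← Finset.mul_sum, Finset.sum_add_distrib, Finset.sum_sub_distrib,
    ← Finset.mul_sum, ← Finset.mul_sum, sum_j, sum_j2]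
  simp only [sum_const, card_range, nsmul_eq_mul]
  push_cast
  field_simp
  ring

lemma sum_dev3 (e : ℕ) : ∑ j ∈ range (e + 1), dev e j ^ 3 = 0 := by
  have h : ∀ j ∈ range (e + 1), dev e j ^ 3 =
      (125 / 343) / ((e : ℝ) + 2) ^ 3 * ((e : ℝ) ^ 3 - 6 * (e : ℝ) ^ 2 * j + 12 * e * (j : ℝ) ^ 2 -
        8 * (j : ℝ) ^ 3) := by
    intro j _
    unfold dev
    field_simp
    ring
  rw [Finset.sum_congr rfl h, ← Finset.mul_sum, Finset.sum_sub_distrib, Finset.sum_add_distrib,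
    Finset.sum_sub_distrib, ← Finset.mul_sum, ← Finset.mul_sum, ← Finset.mul_sum, sum_j, sum_j2,
    sum_j3]
  simp only [sum_const, card_range, nsmul_eq_mul]
  push_cast
  ring

lemma sum_mu (e : ℕ) : ∑ j ∈ range (e + 1), mu e j = 1 := by
  unfold mu
  rw [← Finset.sum_div, Finset.sum_add_distrib, sum_dev1]
  simp only [sum_const, card_range, nsmul_eq_mul]
  push_cast
  field_simp
  ring

lemma sum_mu_j (e : ℕ) : ∑ j ∈ range (e + 1), mu e j * (j : ℝ) = (8 / 21) * e := by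
  have h : ∀ j ∈ range (e + 1), mu e j * (j : ℝ) =
      1 / ((e : ℝ) + 1) * ((1 + (5 / 7) * (e / ((e : ℝ) + 2))) * j -
        (10 / 7) / ((e : ℝ) + 2) * (j : ℝ) ^ 2) := by
    intro j _
    unfold mu dev
    field_simp
    ring
  rw [Finset.sum_congr rfl h, ← Finset.mul_sum, Finset.sum_sub_distrib, ← Finset.mul_sum,
    ← Finset.mul_sum, sum_j, sum_j2]
  field_simp
  ring

/-- The averaged eighth-root factor. -/
noncomputable def kk (e : ℕ) : ℝ := ∑ j ∈ range (e + 1), mu e j * pp (dev e j)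

lemma kk_nonneg (e : ℕ) : 0 ≤ kk e := by
  apply Finset.sum_nonneg
  intro j hj
  have hj' : j ≤ e := by simpa [Nat.lt_succ_iff] using hj
  exact mul_nonneg (mu_pos hj').le (pp_pos (dev_abs_le hj')).le

lemma kk_le (e : ℕ) : kk e ≤ 1 + (9 / 128) * ((25 / 49) * ((e : ℝ) / (3 * (e + 2)))) +
    (35 / 1024) * ((25 / 49) * ((e : ℝ) / (e + 2)) ^ 2) * ((25 / 49) * ((e : ℝ) / (3 * (e + 2)))) := by
  have h : ∀ j ∈ range (e + 1), mu e j * pp (dev e j) ≤
      1 / ((e : ℝ) + 1) * (1 + (9 / 8) * dev e j + (9 / 128) * dev e j ^ 2 -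
        (21 / 1024) * dev e j ^ 3 +
        (35 / 1024) * ((25 / 49) * ((e : ℝ) / (e + 2)) ^ 2) * dev e j ^ 2) := by
    intro j hj
    have hj' : j ≤ e := by simpa [Nat.lt_succ_iff] using hj
    have hd := dev_abs hj'
    have hsq : dev e j ^ 2 ≤ (25 / 49) * ((e : ℝ) / (e + 2)) ^ 2 := by
      have := pow_le_pow_left₀ (abs_nonneg _) hd 2
      rw [sq_abs] at this
      calc dev e j ^ 2 ≤ _ := this
        _ = _ := by ring
    have e1 : mu e j * pp (dev e j) = 1 / ((e : ℝ) + 1) * (1 + (9 / 8) * dev e j +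
        (9 / 128) * dev e j ^ 2 - (21 / 1024) * dev e j ^ 3 + (35 / 1024) * dev e j ^ 2 * dev e j ^ 2) := by
      unfold mu pp
      ring
    rw [e1]
    apply mul_le_mul_of_nonneg_left _ (by positivity)
    have := mul_le_mul_of_nonneg_right hsq (sq_nonneg (dev e j))
    linarith
  unfold kk
  refine (Finset.sum_le_sum h).trans (le_of_eq ?_)
  rw [← Finset.mul_sum, Finset.sum_add_distrib, Finset.sum_sub_distrib, Finset.sum_add_distrib,
    Finset.sum_add_distrib, ← Finset.mul_sum, ← Finset.mul_sum, ← Finset.mul_sum, ← Finset.mul_sum,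
    sum_dev1, sum_dev2, sum_dev3]
  simp only [sum_const, card_range, nsmul_eq_mul]
  push_cast
  field_simp
  ring

lemma pow160 {x a b c d f B : ℝ} (_h0 : 0 ≤ x) (h1 : x ^ 2 ≤ a) (h2 : a ^ 2 ≤ b) (h3 : b ^ 2 ≤ c)
    (h4 : c ^ 2 ≤ d) (h5 : d ^ 2 ≤ f) (h6 : f ^ 5 ≤ B) : x ^ 160 ≤ B := by
  have ha : 0 ≤ a := (sq_nonneg x).trans h1
  have hb : 0 ≤ b := (sq_nonneg a).trans h2
  have hc : 0 ≤ c := (sq_nonneg b).trans h3
  have hd : 0 ≤ d := (sq_nonneg c).trans h4
  calc x ^ 160 = (x ^ 2) ^ 80 := by rw [← pow_mul]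
    _ ≤ a ^ 80 := pow_le_pow_left₀ (by positivity) h1 _
    _ = (a ^ 2) ^ 40 := by rw [← pow_mul]
    _ ≤ b ^ 40 := pow_le_pow_left₀ (by positivity) h2 _
    _ = (b ^ 2) ^ 20 := by rw [← pow_mul]
    _ ≤ c ^ 20 := pow_le_pow_left₀ (by positivity) h3 _
    _ = (c ^ 2) ^ 10 := by rw [← pow_mul]
    _ ≤ d ^ 10 := pow_le_pow_left₀ (by positivity) h4 _
    _ = (d ^ 2) ^ 5 := by rw [← pow_mul]
    _ ≤ f ^ 5 := pow_le_pow_left₀ (by positivity) h5 _
    _ ≤ B := h6

lemma kk_pow (e : ℕ) : kk e ^ 160 ≤ (e : ℝ) + 1 := by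
  have h := kk_le e
  have h0 := kk_nonneg e
  rcases Nat.lt_or_ge e 10 with h10 | h10
  · interval_cases e
    · refine pow160 (a := 1) (b := 1) (c := 1) (d := 1) (f := 1) h0 ?_ (by norm_num) (by norm_num)
        (by norm_num) (by norm_num) (by norm_num)
      norm_num at h
      nlinarith
    · have h12 : kk 1 ≤ 1.00409582 := h.trans (by norm_num)
      refine pow160 (a := 1.008209) (b := 1.016486) (c := 1.033244) (d := 1.067594)
        (f := 1.139757) h0 ?_ (by norm_num) (by norm_num) (by norm_num) (by norm_num)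
        (by norm_num)
      nlinarith
    · have h12 : kk 2 ≤ 1.00634968 := h.trans (by norm_num)
      refine pow160 (a := 1.012740) (b := 1.025643) (c := 1.051944) (d := 1.106587)
        (f := 1.224535) h0 ?_ (by norm_num) (by norm_num) (by norm_num) (by norm_num)
        (by norm_num)
      nlinarith
    · have h12 : kk 3 ≤ 1.00781535 := h.trans (by norm_num)
      refine pow160 (a := 1.015692) (b := 1.031631) (c := 1.064263) (d := 1.132656)
        (f := 1.282910) h0 ?_ (by norm_num) (by norm_num) (by norm_num) (by norm_num)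
        (by norm_num)
      nlinarith
    · have h12 : kk 4 ≤ 1.00885068 := h.trans (by norm_num)
      refine pow160 (a := 1.017780) (b := 1.035877) (c := 1.073042) (d := 1.151420)
        (f := 1.325769) h0 ?_ (by norm_num) (by norm_num) (by norm_num) (by norm_num)
        (by norm_num)
      nlinarith
    · have h12 : kk 5 ≤ 1.00962218 := h.trans (by norm_num)
      refine pow160 (a := 1.019337) (b := 1.039048) (c := 1.079621) (d := 1.165582)
        (f := 1.358582) h0 ?_ (by norm_num) (by norm_num) (by norm_num) (by norm_num)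
        (by norm_num)
      nlinarith
    · have h12 : kk 6 ≤ 1.01021961 := h.trans (by norm_num)
      refine pow160 (a := 1.020544) (b := 1.041511) (c := 1.084746) (d := 1.176674)
        (f := 1.384562) h0 ?_ (by norm_num) (by norm_num) (by norm_num) (by norm_num)
        (by norm_num)
      nlinarith
    · have h12 : kk 7 ≤ 1.01069601 := h.trans (by norm_num)
      refine pow160 (a := 1.021507) (b := 1.043477) (c := 1.088845) (d := 1.185584)
        (f := 1.405610) h0 ?_ (by norm_num) (by norm_num) (by norm_num) (by norm_num)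
        (by norm_num)
      nlinarith
    · have h12 : kk 8 ≤ 1.01108480 := h.trans (by norm_num)
      refine pow160 (a := 1.022293) (b := 1.045083) (c := 1.092199) (d := 1.192899)
        (f := 1.423009) h0 ?_ (by norm_num) (by norm_num) (by norm_num) (by norm_num)
        (by norm_num)
      nlinarith
    · have h12 : kk 9 ≤ 1.01140812 := h.trans (by norm_num)
      refine pow160 (a := 1.022947) (b := 1.046421) (c := 1.094997) (d := 1.199019)
        (f := 1.437647) h0 ?_ (by norm_num) (by norm_num) (by norm_num) (by norm_num)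
        (by norm_num)
      nlinarith
  · have hx : (e : ℝ) / (e + 2) ≤ 1 := by
      rw [div_le_one (by positivity)]; linarith
    have hx0 : (0 : ℝ) ≤ (e : ℝ) / (e + 2) := by positivity
    have hx3 : (e : ℝ) / (3 * (e + 2)) ≤ 1 / 3 := by
      rw [div_le_iff₀ (by positivity)]; linarith
    have hx30 : (0 : ℝ) ≤ (e : ℝ) / (3 * (e + 2)) := by positivity
    have hsq : ((e : ℝ) / (e + 2)) ^ 2 ≤ 1 := by nlinarith
    have hb : 1 + (9 / 128) * ((25 / 49) * ((e : ℝ) / (3 * (e + 2)))) +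
        (35 / 1024) * ((25 / 49) * ((e : ℝ) / (e + 2)) ^ 2) * ((25 / 49) * ((e : ℝ) / (3 * (e + 2)))) ≤
        1 + (9 / 128) * ((25 / 49) * (1 / 3)) + (35 / 1024) * ((25 / 49) * 1) * ((25 / 49) * (1 / 3)) := by
      gcongr
    have h11 : (11 : ℝ) ≤ (e : ℝ) + 1 := by
      have : (10 : ℝ) ≤ e := by exact_mod_cast h10
      linarith
    have h12 : kk e ≤ 1.0149237 := (h.trans hb).trans (by norm_num)
    refine le_trans ?_ h11
    refine pow160 (a := 1.030071) (b := 1.061047) (c := 1.125821) (d := 1.267473) (f := 1.606488) h0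
      ?_ (by norm_num) (by norm_num) (by norm_num) (by norm_num) (by norm_num)
    nlinarith

end Pool.Agent.Helper34.GGP
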