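import Mathlib
import Pool.Agent.Helper34.GGP.Sieve
import Pool.Agent.Helper34.GGP.Tilt

set_option autoImplicit false

namespace Pool.Agent.Helper34.GGP

open Finset

variable {ι : Type*} [Fintype ι] [DecidableEq ι]

/-- The box of exponent vectors. -/
def box (e : ι → ℕ) : Finset (ι → ℕ) := Fintype.piFinset (fun i => range (e i + 1))

lemma mem_box {e x : ι → ℕ} : x ∈ box e ↔ ∀ i, x i ≤ e i := by
  simp [box]

lemma card_box (e : ι → ℕ) : (box e).card = ∏ i, (e i + 1) := by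
  simp [box, Fintype.card_piFinset]

/-- The product measure. -/
noncomputable def PP (e x : ι → ℕ) : ℝ := ∏ i, mu (e i) (x i)

/-- The product of the eighth-root factors. -/
noncomputable def KK (e x : ι → ℕ) : ℝ := ∏ i, pp (dev (e i) (x i))

lemma PP_pos {e x : ι → ℕ} (hx : x ∈ box e) : 0 < PP e x :=
  Finset.prod_pos (fun i _ => mu_pos (mem_box.1 hx i))

lemma KK_pos {e x : ι → ℕ} (hx : x ∈ box e) : 0 < KK e x :=
  Finset.prod_pos (fun i _ => pp_pos (dev_abs_le (mem_box.1 hx i)))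

lemma sum_PP (e : ι → ℕ) : ∑ x ∈ box e, PP e x = 1 := by
  unfold PP box
  rw [← Finset.prod_univ_sum]
  exact Finset.prod_eq_one (fun i _ => sum_mu (e i))

lemma sum_PP_KK (e : ι → ℕ) : ∑ x ∈ box e, PP e x * KK e x = ∏ i, kk (e i) := by
  unfold PP KK box
  simp_rw [← Finset.prod_mul_distrib]
  rw [← Finset.prod_univ_sum (fun i => range (e i + 1))
    (fun i j => mu (e i) j * pp (dev (e i) j))]
  rfl

lemma sum_PP_coord (e : ι → ℕ) (i : ι) :
    ∑ x ∈ box e, PP e x * (x i : ℝ) = (8 / 21) * e i := by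
  have h : ∀ x ∈ box e, PP e x * (x i : ℝ) =
      ∏ k, (mu (e k) (x k) * if k = i then (x k : ℝ) else 1) := by
    intro x _
    rw [Finset.prod_mul_distrib, Finset.prod_ite_eq' univ i (fun k => (x k : ℝ))]
    simp [PP]
  rw [Finset.sum_congr rfl h]
  unfold box
  rw [← Finset.prod_univ_sum (fun i => range (e i + 1))
    (fun k j => mu (e k) j * if k = i then (j : ℝ) else 1)]
  have h2 : ∀ k, ∑ j ∈ range (e k + 1), (mu (e k) j * if k = i then (j : ℝ) else 1) =
      if k = i then (8 / 21) * (e k : ℝ) else 1 := by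
    intro k
    by_cases hk : k = i
    · simp only [hk, if_true]
      exact sum_mu_j (e i)
    · simp only [hk, if_false, mul_one]
      exact sum_mu (e k)
  simp_rw [h2]
  rw [Finset.prod_ite_eq' univ i (fun k => (8 / 21) * (e k : ℝ))]
  simp

lemma PP_le (e : ι → ℕ) {x : ι → ℕ} (hx : x ∈ box e) :
    PP e x * ((box e).card : ℝ) ≤ KK e x ^ 8 := by
  rw [card_box]
  unfold PP KK
  push_cast
  rw [← Finset.prod_mul_distrib, ← Finset.prod_pow]
  apply Finset.prod_le_prod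
  · intro i _
    exact mul_nonneg (mu_pos (mem_box.1 hx i)).le (by positivity)
  · intro i _
    have h := pp_pow (dev_abs_le (mem_box.1 hx i))
    have e1 : mu (e i) (x i) * ((e i : ℝ) + 1) = 1 + dev (e i) (x i) := by
      unfold mu
      field_simp
    rw [e1]
    exact h

lemma tangent {t a : ℝ} (ht : 0 < t) (ha : 0 < a) :
    9 / a ^ 8 - 8 * t / a ^ 9 ≤ 1 / t ^ 8 := by
  have hu : 0 < a / t := div_pos ha ht
  have h1 : 1 + (8 : ℕ) * (a / t - 1) ≤ (1 + (a / t - 1)) ^ 8 :=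
    one_add_mul_le_pow (by linarith) 8
  have h2 : 2 ≤ a / t + t / a := by
    have : a / t + t / a - 2 = (a - t) ^ 2 / (a * t) := by
      field_simp
      ring
    have h3 : 0 ≤ (a - t) ^ 2 / (a * t) := by positivity
    linarith
  have h4 : 9 - 8 * (t / a) ≤ (a / t) ^ 8 := by
    have e1 : 1 + (a / t - 1) = a / t := by ring
    rw [e1] at h1
    push_cast at h1
    linarith
  have h5 := mul_le_mul_of_nonneg_right h4 (by positivity : (0 : ℝ) ≤ 1 / a ^ 8)
  calc 9 / a ^ 8 - 8 * t / a ^ 9 = (9 - 8 * (t / a)) * (1 / a ^ 8) := by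
        field_simp
    _ ≤ (a / t) ^ 8 * (1 / a ^ 8) := h5
    _ = 1 / t ^ 8 := by
        rw [div_pow]
        field_simp

/-- Lower bound for the size of a subset of the box of given measure. -/
lemma card_ge_of_measure (e : ι → ℕ) (L : Finset (ι → ℕ)) (hL : L ⊆ box e)
    (hS : 0 < ∑ x ∈ L, PP e x) :
    (∑ x ∈ L, PP e x) ^ 9 * ((box e).card : ℝ) ≤ (∏ i, kk (e i)) ^ 8 * (L.card : ℝ) := by
  set S := ∑ x ∈ L, PP e x with hSdef
  set M := ∑ x ∈ L, PP e x * KK e x with hMdef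
  set n : ℝ := ((box e).card : ℝ) with hn
  have hLne : L.Nonempty := by
    rcases L.eq_empty_or_nonempty with h | h
    · rw [hSdef, h] at hS; simp at hS
    · exact h
  have hnpos : 0 < n := by
    rw [hn]
    obtain ⟨x, hx⟩ := hLne
    exact_mod_cast card_pos.2 ⟨x, hL hx⟩
  have hM : 0 < M := Finset.sum_pos (fun x hx => mul_pos (PP_pos (hL hx)) (KK_pos (hL hx))) hLne
  have hMK : M ≤ ∏ i, kk (e i) := by
    rw [← sum_PP_KK]
    apply Finset.sum_le_sum_of_subset_of_nonneg hL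
    intro x hx _
    exact (mul_pos (PP_pos hx) (KK_pos hx)).le
  set a := M / S with ha
  have hapos : 0 < a := div_pos hM hS
  have h1 : ∑ x ∈ L, PP e x * (9 / a ^ 8 - 8 * KK e x / a ^ 9) ≤ ∑ x ∈ L, 1 / n := by
    refine Finset.sum_le_sum (fun x hx => ?_)
    have hk := KK_pos (hL hx)
    have hp := PP_pos (hL hx)
    calc PP e x * (9 / a ^ 8 - 8 * KK e x / a ^ 9) ≤ PP e x * (1 / KK e x ^ 8) :=
          mul_le_mul_of_nonneg_left (tangent hk hapos) hp.le
      _ ≤ 1 / n := by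
          rw [mul_one_div, div_le_div_iff₀ (by positivity) hnpos, one_mul]
          exact PP_le e (hL hx)
  have h2 : ∑ x ∈ L, PP e x * (9 / a ^ 8 - 8 * KK e x / a ^ 9) = S ^ 9 / M ^ 8 := by
    have : ∀ x ∈ L, PP e x * (9 / a ^ 8 - 8 * KK e x / a ^ 9) =
        (9 / a ^ 8) * PP e x - (8 / a ^ 9) * (PP e x * KK e x) := by
      intro x _; ring
    rw [Finset.sum_congr rfl this, Finset.sum_sub_distrib, ← Finset.mul_sum, ← Finset.mul_sum,
      ← hSdef, ← hMdef, ha]
    field_simp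
    ring
  rw [h2, Finset.sum_const, nsmul_eq_mul, mul_one_div, div_le_div_iff₀ (by positivity) hnpos] at h1
  calc S ^ 9 * n ≤ (L.card : ℝ) * M ^ 8 := h1
    _ ≤ (L.card : ℝ) * (∏ i, kk (e i)) ^ 8 := by
        apply mul_le_mul_of_nonneg_left _ (by positivity)
        exact pow_le_pow_left₀ hM.le hMK 8
    _ = _ := by ring

/-- The small vectors have measure at least `1/700`. -/
lemma measure_small (e : ι → ℕ) (w : ι → ℝ) (hw : ∀ i, 0 ≤ w i)
    (hW : 0 < ∑ i, w i * (e i : ℝ)) :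
    1 / 700 ≤ ∑ x ∈ (box e).filter
      (fun x => ∑ i, w i * (x i : ℝ) ≤ (763 / 2000) * ∑ i, w i * (e i : ℝ)), PP e x := by
  set W := ∑ i, w i * (e i : ℝ) with hWdef
  have hmean : ∑ x ∈ box e, PP e x * ∑ i, w i * (x i : ℝ) = (8 / 21) * W := by
    have : ∀ x ∈ box e, PP e x * ∑ i, w i * (x i : ℝ) = ∑ i, w i * (PP e x * (x i : ℝ)) := by
      intro x _
      rw [Finset.mul_sum]
      exact Finset.sum_congr rfl (fun i _ => by ring)
    rw [Finset.sum_congr rfl this, Finset.sum_comm]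
    simp_rw [← Finset.mul_sum, sum_PP_coord]
    rw [hWdef, Finset.mul_sum]
    exact Finset.sum_congr rfl (fun i _ => by ring)
  have hsplit := Finset.sum_filter_add_sum_filter_not (box e)
    (fun x => ∑ i, w i * (x i : ℝ) ≤ (763 / 2000) * W) (fun x => PP e x)
  rw [sum_PP] at hsplit
  have hbad : (763 / 2000) * W * ∑ x ∈ (box e).filter
      (fun x => ¬ ∑ i, w i * (x i : ℝ) ≤ (763 / 2000) * W), PP e x ≤ (8 / 21) * W := by
    rw [← hmean, Finset.mul_sum]
    calc ∑ x ∈ (box e).filter (fun x => ¬ ∑ i, w i * (x i : ℝ) ≤ (763 / 2000) * W),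
          (763 / 2000) * W * PP e x
        ≤ ∑ x ∈ (box e).filter (fun x => ¬ ∑ i, w i * (x i : ℝ) ≤ (763 / 2000) * W),
          PP e x * ∑ i, w i * (x i : ℝ) := by
          refine Finset.sum_le_sum (fun x hx => ?_)
          rw [mem_filter, not_le] at hx
          rw [mul_comm]
          exact mul_le_mul_of_nonneg_left hx.2.le (PP_pos hx.1).le
      _ ≤ ∑ x ∈ box e, PP e x * ∑ i, w i * (x i : ℝ) := by
          apply Finset.sum_le_sum_of_subset_of_nonneg (Finset.filter_subset _ _)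
          intro x hx _
          apply mul_nonneg (PP_pos hx).le
          exact Finset.sum_nonneg (fun i _ => mul_nonneg (hw i) (Nat.cast_nonneg _))
  have h3 : (763 / 2000) * ∑ x ∈ (box e).filter
      (fun x => ¬ ∑ i, w i * (x i : ℝ) ≤ (763 / 2000) * W), PP e x ≤ 8 / 21 := by
    have : W * ((763 / 2000) * ∑ x ∈ (box e).filter
      (fun x => ¬ ∑ i, w i * (x i : ℝ) ≤ (763 / 2000) * W), PP e x) ≤ W * (8 / 21) := by
      linarith
    exact le_of_mul_le_mul_left this hW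
  linarith

lemma prod_kk_pow (e : ι → ℕ) : (∏ i, kk (e i)) ^ 160 ≤ ((box e).card : ℝ) := by
  rw [← Finset.prod_pow, card_box]
  push_cast
  apply Finset.prod_le_prod
  · intro i _
    exact pow_nonneg (kk_nonneg _) _
  · intro i _
    exact kk_pow _

/-- There are many small vectors. -/
lemma many_small (e : ι → ℕ) (w : ι → ℝ) (hw : ∀ i, 0 ≤ w i)
    (hW : 0 < ∑ i, w i * (e i : ℝ)) :
    (1 / 700) ^ 9 * ((box e).card : ℝ) ^ (19 / 20 : ℝ) ≤
      (((box e).filter
      (fun x => ∑ i, w i * (x i : ℝ) ≤ (763 / 2000) * ∑ i, w i * (e i : ℝ))).card : ℝ) := by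
  set L := (box e).filter
      (fun x => ∑ i, w i * (x i : ℝ) ≤ (763 / 2000) * ∑ i, w i * (e i : ℝ)) with hLdef
  have h1 : 1 / 700 ≤ ∑ x ∈ L, PP e x := measure_small e w hw hW
  have h2 := card_ge_of_measure e L (Finset.filter_subset _ _) (by linarith)
  set n : ℝ := ((box e).card : ℝ) with hn
  have hnpos : 0 < n := by
    rw [hn, card_box]
    push_cast
    exact Finset.prod_pos (fun i _ => by positivity)
  set K := ∏ i, kk (e i) with hK
  have hK0 : 0 ≤ K := Finset.prod_nonneg (fun i _ => kk_nonneg _)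
  have hK8 : K ^ 8 ≤ n ^ (1 / 20 : ℝ) := by
    have h := prod_kk_pow e
    rw [← hK, ← hn] at h
    have h' := Real.rpow_le_rpow (by positivity) h (by norm_num : (0 : ℝ) ≤ 1 / 20)
    have e1 : (K ^ 160) ^ (1 / 20 : ℝ) = K ^ 8 := by
      rw [← Real.rpow_natCast K 160, ← Real.rpow_mul hK0, ← Real.rpow_natCast K 8]
      norm_num
    rwa [e1] at h'
  have h3 : (1 / 700) ^ 9 * n ≤ n ^ (1 / 20 : ℝ) * (L.card : ℝ) := by
    calc (1 / 700) ^ 9 * n ≤ (∑ x ∈ L, PP e x) ^ 9 * n := by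
          apply mul_le_mul_of_nonneg_right _ hnpos.le
          exact pow_le_pow_left₀ (by norm_num) h1 9
      _ ≤ K ^ 8 * (L.card : ℝ) := h2
      _ ≤ n ^ (1 / 20 : ℝ) * (L.card : ℝ) :=
          mul_le_mul_of_nonneg_right hK8 (Nat.cast_nonneg _)
  have hpos : 0 < n ^ (1 / 20 : ℝ) := Real.rpow_pos_of_pos hnpos _
  have h4 : n ^ (1 / 20 : ℝ) * n ^ (19 / 20 : ℝ) = n := by
    rw [← Real.rpow_add hnpos]
    norm_num
  have h5 : n ^ (1 / 20 : ℝ) * ((1 / 700) ^ 9 * n ^ (19 / 20 : ℝ)) ≤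
      n ^ (1 / 20 : ℝ) * (L.card : ℝ) := by
    calc n ^ (1 / 20 : ℝ) * ((1 / 700) ^ 9 * n ^ (19 / 20 : ℝ))
        = (1 / 700) ^ 9 * (n ^ (1 / 20 : ℝ) * n ^ (19 / 20 : ℝ)) := by ring
      _ = (1 / 700) ^ 9 * n := by rw [h4]
      _ ≤ _ := h3
  exact le_of_mul_le_mul_left h5 hpos

end Pool.Agent.Helper34.GGP
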